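import Mathlib
import Pool.Agent.X321.Homog

/-!
# The locus of maximal Schmidt rank need not be locally closed

A family of cubic polynomials in six variables over the affine plane.
-/

namespace Pool.Agent.Results.MP_60b600_ag.NotLocallyClosed

open MvPolynomial Pool.Agent.X321.Homog

section Defs

/-- `P` is a sum of `r` products of polynomials of degree less than `d`. -/
def IsSumOfProducts {K : Type*} [Field K] {n : ℕ} (d r : ℕ) (P : MvPolynomial (Fin n) K) : Prop :=
  ∃ Q R : Fin r → MvPolynomial (Fin n) K,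
    (∀ i, (Q i).totalDegree < d ∧ (R i).totalDegree < d) ∧ P = ∑ i, Q i * R i

/-- The Schmidt rank of a polynomial `P`: the least `r` such that `P` is a sum of `r` products of
polynomials of degree less than the degree of `P`. -/
noncomputable def schmidtRank {K : Type*} [Field K] {n : ℕ} (P : MvPolynomial (Fin n) K) : ℕ :=
  sInf {r | IsSumOfProducts P.totalDegree r P}

/-- The Zariski topology on affine space `K ^ m`: the closed sets are the sets of common zeros of
families of polynomials. -/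
@[instance_reducible]
def zariskiTopology (K : Type*) [Field K] (m : ℕ) : TopologicalSpace (Fin m → K) :=
  TopologicalSpace.ofClosed {Z | ∃ I : Set (MvPolynomial (Fin m) K), Z = {x | ∀ f ∈ I, eval x f = 0}}
    ⟨Set.univ, by
      ext x
      simp only [Set.mem_empty_iff_false, Set.mem_ofPred_eq, false_iff, not_forall]
      exact ⟨1, Set.mem_univ _, by simp⟩⟩
    (by
      intro A hA
      have hA' : ∀ Z ∈ A, ∃ I : Set (MvPolynomial (Fin m) K), Z = {x | ∀ f ∈ I, eval x f = 0} :=
        fun Z hZ => hA hZ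
      choose! I hI using hA'
      refine ⟨⋃ Z ∈ A, I Z, ?_⟩
      ext x
      simp only [Set.mem_sInter, Set.mem_iUnion, Set.mem_ofPred_eq]
      constructor
      · rintro h f ⟨Z, hZ, hf⟩
        have := h Z hZ
        rw [hI Z hZ] at this
        exact this f hf
      · intro h Z hZ
        rw [hI Z hZ]
        intro f hf
        exact h f ⟨Z, hZ, hf⟩)
    (by
      rintro A ⟨I, rfl⟩ B ⟨J, rfl⟩
      refine ⟨{h | ∃ f ∈ I, ∃ g ∈ J, h = f * g}, ?_⟩
      ext x
      simp only [Set.mem_union, Set.mem_ofPred_eq]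
      constructor
      · rintro (h | h) _ ⟨f, hf, g, hg, rfl⟩
        · rw [map_mul, h f hf, zero_mul]
        · rw [map_mul, h g hg, mul_zero]
      · intro h
        by_contra hcon
        rw [not_or] at hcon
        obtain ⟨h1, h2⟩ := hcon
        push Not at h1 h2
        obtain ⟨f, hf, hfx⟩ := h1
        obtain ⟨g, hg, hgx⟩ := h2
        have := h _ ⟨f, hf, g, hg, rfl⟩
        rw [map_mul] at this
        exact mul_ne_zero hfx hgx this)

end Defs

section Lower

variable {K : Type*} [Field K]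

/-- the polynomial ring in six variables -/
abbrev RR (K : Type*) [Field K] : Type _ := MvPolynomial (Fin 6) K

/-- the cubic form -/
noncomputable def NN (K : Type*) [Field K] : RR K := X 0 ^ 2 * X 2 + X 1 ^ 2 * X 3

lemma eval_NN (v : Fin 6 → K) : eval v (NN K) = v 0 ^ 2 * v 2 + v 1 ^ 2 * v 3 := by
  simp [NN]

lemma NN_ne_zero : NN K ≠ 0 := by
  intro h
  have := congrArg (eval (![1, 0, 1, 0, 0, 0] : Fin 6 → K)) h
  rw [eval_NN] at this
  simp at this

lemma exists_point {A : RR K} (hA : A.IsHomogeneous 1) :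
    ∃ v : Fin 6 → K, eval v A = 0 ∧ eval v (NN K) ≠ 0 := by
  obtain ⟨a, rfl⟩ := exists_linear hA
  have hev : ∀ v : Fin 6 → K, eval v (∑ i, C (a i) * X i) = a 0 * v 0 + a 1 * v 1 + a 2 * v 2
      + a 3 * v 3 + a 4 * v 4 + a 5 * v 5 := by
    intro v
    rw [map_sum, Fin.sum_univ_six]
    simp
  by_cases h0 : a 0 = 0
  · by_cases h3 : a 3 = 0
    · by_cases h1 : a 1 = 0
      · by_cases h4 : a 4 = 0
        · by_cases h5 : a 5 = 0
          · refine ⟨![0, 1, 0, 1, 0, 0], ?_, ?_⟩
            · rw [hev]; simp [h0, h1, h3, h4, h5]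
            · rw [eval_NN]; simp
          · refine ⟨![1, 0, 1, 0, 0, -(a 2 / a 5)], ?_, ?_⟩
            · rw [hev]; simp [h0, h1, h3, h4]; field_simp; ring
            · rw [eval_NN]; simp
        · refine ⟨![1, 0, 1, 0, -(a 2 / a 4), 0], ?_, ?_⟩
          · rw [hev]; simp [h0, h1, h3]; field_simp; ring
          · rw [eval_NN]; simp
      · refine ⟨![1, -(a 2 / a 1), 1, 0, 0, 0], ?_, ?_⟩
        · rw [hev]; simp [h0, h3]; field_simp; ring
        · rw [eval_NN]; simp
    · refine ⟨![1, 0, 1, -(a 2 / a 3), 0, 0], ?_, ?_⟩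
      · rw [hev]; simp [h0]; field_simp; ring
      · rw [eval_NN]; simp
  · refine ⟨![-((a 1 + a 3) / a 0), 1, 0, 1, 0, 0], ?_, ?_⟩
    · rw [hev]; simp; field_simp; ring
    · rw [eval_NN]; simp

/-- the cubic form has no linear factor -/
lemma NN_ne_mul {A B : RR K} (hA : A.IsHomogeneous 1) : NN K ≠ A * B := by
  intro h
  obtain ⟨v, hv, hN⟩ := exists_point hA
  apply hN
  rw [h, map_mul, hv, zero_mul]

/-- substitution for the last variable -/
noncomputable def sg (w : RR K) : RR K →ₐ[K] RR K := aeval fun i => if i = 5 then w else X i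

lemma sg_X (w : RR K) (i : Fin 6) : sg w (X i) = if i = 5 then w else X i := by
  simp [sg]

lemma sg_NN (w : RR K) : sg w (NN K) = NN K := by
  simp only [NN, map_add, map_mul, map_pow, sg_X]
  simp

lemma sg_hom {w : RR K} (hw : w.IsHomogeneous 1) {f : RR K} {n : ℕ} (hf : f.IsHomogeneous n) :
    (sg w f).IsHomogeneous n := by
  have := hf.aeval (fun i : Fin 6 => if i = 5 then w else X i) (n := 1) (by
    intro i
    split_ifs
    · exact hw
    · exact isHomogeneous_X _ _)
  rwa [one_mul] at this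

lemma sg_sg (w : RR K) (f : RR K) : sg w (sg 0 f) = sg 0 f := by
  have h : (sg w).comp (sg 0) = sg (0 : RR K) := by
    apply MvPolynomial.algHom_ext
    intro i
    rw [AlgHom.comp_apply, sg_X]
    split_ifs with h
    · rw [map_zero]
    · rw [sg_X, if_neg h]
  rw [← AlgHom.comp_apply, h]

lemma split {L : RR K} (hL : L.IsHomogeneous 1) : ∃ l : K, L = sg 0 L + C l * X 5 := by
  obtain ⟨a, rfl⟩ := exists_linear hL
  refine ⟨a 5, ?_⟩
  rw [map_sum, Fin.sum_univ_six, Fin.sum_univ_six]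
  simp only [map_mul, sg_X, algHom_C]
  simp [algebraMap_eq]

/-- the last step: the polynomial identity that cannot hold -/
lemma final_step {κ κ' : K} (hκ : κ ≠ 0) (hκ' : κ' ≠ 0) {α β γ δ : RR K} (hα : α.IsHomogeneous 1) (hβ : β.IsHomogeneous 1)
    (hγ : γ.IsHomogeneous 1) (hδ : δ.IsHomogeneous 1)
    (h : NN K = C κ * β ^ 2 * δ + C κ' * α ^ 2 * γ - X 5 * γ * δ) : False := by
  obtain ⟨g, hg⟩ := split hγ
  obtain ⟨d, hd⟩ := split hδ
  obtain ⟨p, hp⟩ := split hα
  obtain ⟨q, hq⟩ := split hβ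
  have h0 : (0 : RR K).IsHomogeneous 1 := isHomogeneous_zero _ _ _
  have hα0 := sg_hom h0 hα
  have hβ0 := sg_hom h0 hβ
  have hγ0 := sg_hom h0 hγ
  have hδ0 := sg_hom h0 hδ
  -- substitution
  have hsub : ∀ w : RR K, NN K = C κ * (sg w β) ^ 2 * sg w δ + C κ' * (sg w α) ^ 2 * sg w γ
      - w * sg w γ * sg w δ := by
    intro w
    have := congrArg (sg w) h
    rw [sg_NN] at this
    rw [this]
    simp only [map_sub, map_add, map_mul, map_pow, sg_X, algHom_C, algebraMap_eq, if_true]
  have hzero : NN K = C κ * (sg 0 β) ^ 2 * sg 0 δ + C κ' * (sg 0 α) ^ 2 * sg 0 γ := by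
    have := hsub 0
    rw [zero_mul, zero_mul, sub_zero] at this
    exact this
  by_cases hg0 : g = 0
  · by_cases hd0 : d = 0
    · -- the interesting case
      rw [hg0, map_zero, zero_mul, add_zero] at hg
      rw [hd0, map_zero, zero_mul, add_zero] at hd
      set α0 := sg 0 α
      set β0 := sg 0 β
      rw [← hg, ← hd] at hzero
      have h1 : X 5 * ((2 * C κ * C q * β0 * δ + 2 * C κ' * C p * α0 * γ - γ * δ)
          + X 5 * (C κ * C q ^ 2 * δ + C κ' * C p ^ 2 * γ)) = 0 := by
        have h2 := h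
        rw [hzero, hp, hq] at h2
        linear_combination -h2
      have h3 : (2 * C κ * C q * β0 * δ + 2 * C κ' * C p * α0 * γ - γ * δ)
          + X 5 * (C κ * C q ^ 2 * δ + C κ' * C p ^ 2 * γ) = 0 := by
        rcases mul_eq_zero.1 h1 with h4 | h4
        · exact absurd h4 (X_ne_zero _)
        · exact h4
      have h5 : 2 * C κ * C q * β0 * δ + 2 * C κ' * C p * α0 * γ - γ * δ = 0 := by
        have h6 := congrArg (sg 0) h3
        simp only [map_sub, map_add, map_mul, map_pow, sg_X, algHom_C, algebraMap_eq, if_true,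
          map_zero, zero_mul, add_zero, map_ofNat] at h6
        have e1 : sg 0 α0 = α0 := sg_sg _ _
        have e2 : sg 0 β0 = β0 := sg_sg _ _
        rw [e1, e2, ← hg, ← hd] at h6
        exact h6
      have h7 : C κ * C q ^ 2 * δ + C κ' * C p ^ 2 * γ = 0 := by
        rw [h5, zero_add] at h3
        rcases mul_eq_zero.1 h3 with h4 | h4
        · exact absurd h4 (X_ne_zero _)
        · exact h4
      by_cases hq0 : q = 0
      · have h8 : γ = 0 ∨ p = 0 := by
          rw [hq0, map_zero] at h7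
          have h9 : C κ' * C p ^ 2 * γ = 0 := by linear_combination h7
          rcases mul_eq_zero.1 h9 with h10 | h10
          · right
            rcases mul_eq_zero.1 h10 with h11 | h11
            · exact absurd (C_eq_zero.1 h11) hκ'
            · exact C_eq_zero.1 (pow_eq_zero_iff (by norm_num) |>.1 h11)
          · left; exact h10
        have hγcase : γ = 0 → False := by
          intro h10
          rw [h10, mul_zero, add_zero] at hzero
          exact NN_ne_mul hβ0 (hzero.trans (by ring) : NN K = β0 * (C κ * β0 * δ))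
        rcases h8 with h8 | h8
        · exact hγcase h8
        · rw [hq0, h8, map_zero] at h5
          have h9 : γ * δ = 0 := by linear_combination -h5
          rcases mul_eq_zero.1 h9 with h10 | h10
          · exact hγcase h10
          · rw [h10, mul_zero, zero_add] at hzero
            exact NN_ne_mul hα0 (hzero.trans (by ring) : NN K = α0 * (C κ' * α0 * γ))
      · have h8 : δ = C (-(κ' * p ^ 2) / (κ * q ^ 2)) * γ := by
          have h9 : C (κ * q ^ 2) * (δ - C (-(κ' * p ^ 2) / (κ * q ^ 2)) * γ) = 0 := by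
            rw [mul_sub, ← mul_assoc, ← map_mul]
            have : κ * q ^ 2 * (-(κ' * p ^ 2) / (κ * q ^ 2)) = -(κ' * p ^ 2) := by
              field_simp
            rw [this]
            simp only [map_mul, map_neg, map_pow]
            linear_combination h7
          rcases mul_eq_zero.1 h9 with h10 | h10
          · exact absurd (C_eq_zero.1 h10) (mul_ne_zero hκ (pow_ne_zero _ hq0))
          · exact sub_eq_zero.1 h10
        rw [h8] at hzero
        exact NN_ne_mul hγ (hzero.trans (by ring) : NN K = γ *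
          (C κ * β0 ^ 2 * C (-(κ' * p ^ 2) / (κ * q ^ 2)) + C κ' * α0 ^ 2))
    · have hw : (C (-d⁻¹) * sg 0 δ).IsHomogeneous 1 := hδ0.C_mul _
      have h1 : sg (C (-d⁻¹) * sg 0 δ) δ = 0 := by
        have h1' := congrArg (sg (C (-d⁻¹) * sg 0 δ)) hd
        rw [map_add, sg_sg, map_mul, algHom_C, sg_X, if_pos rfl, algebraMap_eq, ← mul_assoc,
          ← map_mul] at h1'
        have : d * -d⁻¹ = -1 := by field_simp
        have hm1 : (C (-1) : RR K) = -1 := by rw [map_neg, map_one]
        rw [this, hm1] at h1'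
        rw [h1']
        ring
      have h2 := hsub (C (-d⁻¹) * sg 0 δ)
      rw [h1, mul_zero, mul_zero, zero_add, sub_zero] at h2
      exact NN_ne_mul (sg_hom hw hα) (h2.trans (by ring) : NN K = sg (C (-d⁻¹) * sg 0 δ) α *
        (C κ' * sg (C (-d⁻¹) * sg 0 δ) α * sg (C (-d⁻¹) * sg 0 δ) γ))
  · have hw : (C (-g⁻¹) * sg 0 γ).IsHomogeneous 1 := hγ0.C_mul _
    have h1 : sg (C (-g⁻¹) * sg 0 γ) γ = 0 := by
      have h1' := congrArg (sg (C (-g⁻¹) * sg 0 γ)) hg
      rw [map_add, sg_sg, map_mul, algHom_C, sg_X, if_pos rfl, algebraMap_eq, ← mul_assoc,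
        ← map_mul] at h1'
      have : g * -g⁻¹ = -1 := by field_simp
      have hm1 : (C (-1) : RR K) = -1 := by rw [map_neg, map_one]
      rw [this, hm1] at h1'
      rw [h1']
      ring
    have h2 := hsub (C (-g⁻¹) * sg 0 γ)
    rw [h1, mul_zero, mul_zero, zero_mul, add_zero, sub_zero] at h2
    exact NN_ne_mul (sg_hom hw hβ) (h2.trans (by ring) : NN K = sg (C (-g⁻¹) * sg 0 γ) β *
      (C κ * sg (C (-g⁻¹) * sg 0 γ) β * sg (C (-g⁻¹) * sg 0 γ) δ))

end Lower

section Upper

variable {K : Type*} [Field K]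

/-- two proportional linear forms from a divisibility -/
lemma eq_C_mul_of_dvd {L M : RR K} (hL : L.IsHomogeneous 1) (hM : M.IsHomogeneous 1)
    (hM0 : M ≠ 0) (h : L ∣ M) : ∃ κ : K, M = C κ * L := by
  obtain ⟨g, hg⟩ := h
  obtain ⟨b, hb, hb1⟩ := isHomogeneous_right hL (by rw [← hg]; exact hM0) (by rw [← hg]; exact hM)
  have hb0 : b = 0 := by omega
  subst hb0
  obtain ⟨κ, rfl⟩ := exists_const hb
  exact ⟨κ, by rw [hg, mul_comm]⟩

/-- a linear form dividing a product of linear forms divides one of them -/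
lemma dvd_or_dvd_of_linear {L M N : RR K} (hL : L.IsHomogeneous 1) (hL0 : L ≠ 0) (h : L ∣ M * N) :
    L ∣ M ∨ L ∣ N := by
  obtain ⟨u, v, hu, hv, huv⟩ := exists_dvd_and_dvd_of_dvd_mul h
  obtain ⟨i, j, hi, hj, hij⟩ := isHomogeneous_of_mul (n := 1) (by rw [← huv]; exact hL0)
    (by rw [← huv]; exact hL)
  rcases Nat.eq_zero_or_pos i with h0 | h0
  · subst h0
    obtain ⟨c, rfl⟩ := exists_const hi
    have hc : c ≠ 0 := by
      rintro rfl
      apply hL0
      rw [huv, map_zero, zero_mul]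
    right
    rw [huv]
    have : IsUnit (C c : RR K) := (isUnit_iff_ne_zero.2 hc).map C
    exact (this.mul_left_dvd).2 hv
  · have h1 : j = 0 := by omega
    subst h1
    obtain ⟨c, rfl⟩ := exists_const hj
    have hc : c ≠ 0 := by
      rintro rfl
      apply hL0
      rw [huv, map_zero, mul_zero]
    left
    rw [huv]
    have : IsUnit (C c : RR K) := (isUnit_iff_ne_zero.2 hc).map C
    exact (this.mul_right_dvd).2 hu

theorem no_rep {a b1 b2 c1 c2 d e : RR K} (ha : a.IsHomogeneous 2) (hb1 : b1.IsHomogeneous 1)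
    (hb2 : b2.IsHomogeneous 2) (hc1 : c1.IsHomogeneous 1) (hc2 : c2.IsHomogeneous 2)
    (hd : d.IsHomogeneous 1)
    (E2 : a = b1 * c1 - X 5 * d) (E3 : a * d + X 5 * e - b1 * c2 - b2 * c1 = -NN K)
    (E4 : a * e = b2 * c2) : False := by
  have h0 : (0 : RR K).IsHomogeneous 1 := isHomogeneous_zero _ _ _
  have hb1' := sg_hom h0 hb1
  have hc1' := sg_hom h0 hc1
  have hd' := sg_hom h0 hd
  have F2 : sg 0 a = sg 0 b1 * sg 0 c1 := by
    have := congrArg (sg 0) E2
    simpa [sg_X] using this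
  have F3 : NN K = sg 0 b1 * sg 0 c2 + sg 0 b2 * sg 0 c1 - sg 0 a * sg 0 d := by
    have := congrArg (sg 0) E3
    simp only [map_sub, map_add, map_mul, map_neg, sg_NN, sg_X, if_true, zero_mul, add_zero] at this
    linear_combination this
  have hb2c : b2 ≠ 0 := by
    rintro rfl
    rw [map_zero, zero_mul, add_zero, F2] at F3
    exact NN_ne_mul hb1' (F3.trans (by ring) :
      NN K = sg 0 b1 * (sg 0 c2 - sg 0 c1 * sg 0 d))
  have hc2c : c2 ≠ 0 := by
    rintro rfl
    rw [map_zero, mul_zero, zero_add, F2] at F3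
    exact NN_ne_mul hc1' (F3.trans (by ring) :
      NN K = sg 0 c1 * (sg 0 b2 - sg 0 b1 * sg 0 d))
  have ha0 : a ≠ 0 := by
    rintro rfl
    rw [zero_mul] at E4
    exact (mul_ne_zero hb2c hc2c) E4.symm
  obtain ⟨α, β, ⟨γ, hγ⟩, ⟨δ, hδ⟩, hαβ⟩ :=
    exists_dvd_and_dvd_of_dvd_mul (Dvd.intro _ E4 : a ∣ b2 * c2)
  have hα0 : α ≠ 0 := by rintro rfl; exact ha0 (by rw [hαβ, zero_mul])
  have hβ0 : β ≠ 0 := by rintro rfl; exact ha0 (by rw [hαβ, mul_zero])
  have he : e = γ * δ := by
    have h1 : α * β * (e - γ * δ) = 0 := by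
      rw [hαβ, hγ, hδ] at E4
      linear_combination E4
    rcases mul_eq_zero.1 h1 with h2 | h2
    · exact absurd h2 (mul_ne_zero hα0 hβ0)
    · exact sub_eq_zero.1 h2
  obtain ⟨i, j, hi, hj, hij⟩ := isHomogeneous_of_mul (n := 2) (by rw [← hαβ]; exact ha0)
    (by rw [← hαβ]; exact ha)
  obtain ⟨i', hi', hii'⟩ := isHomogeneous_right (n := 2) hi (by rw [← hγ]; exact hb2c)
    (by rw [← hγ]; exact hb2)
  obtain ⟨j', hj', hjj'⟩ := isHomogeneous_right (n := 2) hj (by rw [← hδ]; exact hc2c)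
    (by rw [← hδ]; exact hc2)
  have hcases : i = 0 ∨ i = 1 ∨ i = 2 := by omega
  rcases hcases with rfl | rfl | rfl
  · -- `α` is a constant, `δ` is a constant
    obtain ⟨u, rfl⟩ := exists_const hi
    have hj0 : j' = 0 := by omega
    subst hj0
    obtain ⟨w, rfl⟩ := exists_const hj'
    have hu : u ≠ 0 := by rintro rfl; exact hα0 (map_zero _)
    have h1 : c2 = C (w / u) * a := by
      rw [hδ, hαβ]
      have : C (w / u) * (C u * β) = C (w / u * u) * β := by rw [map_mul]; ring
      rw [this, div_mul_cancel₀ _ hu, mul_comm]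
    rw [h1, map_mul, algHom_C, algebraMap_eq, F2] at F3
    exact NN_ne_mul hc1' (F3.trans (by ring) : NN K = sg 0 c1 *
      (C (w / u) * sg 0 b1 ^ 2 + sg 0 b2 - sg 0 b1 * sg 0 d))
  · have hj1 : j = 1 := by omega
    subst hj1
    have hi1 : i' = 1 := by omega
    subst hi1
    have hj1' : j' = 1 := by omega
    subst hj1'
    have hα' := sg_hom h0 hi
    have hβ' := sg_hom h0 hj
    -- the relation modulo the last variable
    have F2' : sg 0 α * sg 0 β = sg 0 b1 * sg 0 c1 := by
      rw [← F2, hαβ, map_mul]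
    have F3' : NN K = sg 0 b1 * sg 0 β * sg 0 δ + sg 0 α * sg 0 γ * sg 0 c1
        - sg 0 α * sg 0 β * sg 0 d := by
      rw [F3, hδ, hγ, hαβ]
      simp only [map_mul]
      ring
    by_cases hbar1 : sg 0 b1 = 0
    · rw [hbar1] at F3'
      exact NN_ne_mul hα' (F3'.trans (by ring) : NN K = sg 0 α *
        (sg 0 γ * sg 0 c1 - sg 0 β * sg 0 d))
    by_cases hbar2 : sg 0 c1 = 0
    · rw [hbar2] at F3'
      exact NN_ne_mul hβ' (F3'.trans (by ring) : NN K = sg 0 β *
        (sg 0 b1 * sg 0 δ - sg 0 α * sg 0 d))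
    by_cases hbar3 : sg 0 α = 0
    · rw [hbar3] at F3'
      exact NN_ne_mul hb1' (F3'.trans (by ring) : NN K = sg 0 b1 *
        (sg 0 β * sg 0 δ))
    rcases dvd_or_dvd_of_linear hα' hbar3 (Dvd.intro _ F2') with hdv | hdv
    · obtain ⟨κ, hκ⟩ := eq_C_mul_of_dvd hα' hb1' hbar1 hdv
      rw [hκ] at F3'
      exact NN_ne_mul hα' (F3'.trans (by ring) : NN K = sg 0 α *
        (C κ * sg 0 β * sg 0 δ + sg 0 γ * sg 0 c1 - sg 0 β * sg 0 d))
    · obtain ⟨κ', hκ'⟩ := eq_C_mul_of_dvd hα' hc1' hbar2 hdv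
      have hκ'0 : κ' ≠ 0 := by
        rintro rfl
        exact hbar2 (by rw [hκ', map_zero, zero_mul])
      have hβb : sg 0 β = C κ' * sg 0 b1 := by
        have h1 : sg 0 α * (sg 0 β - C κ' * sg 0 b1) = 0 := by
          rw [hκ'] at F2'
          linear_combination F2'
        rcases mul_eq_zero.1 h1 with h2 | h2
        · exact absurd h2 hbar3
        · exact sub_eq_zero.1 h2
      have hCC : (C κ'⁻¹ : RR K) * C κ' = 1 := by
        rw [← map_mul, inv_mul_cancel₀ hκ'0, map_one]
      have hbb : sg 0 b1 = C κ'⁻¹ * sg 0 β := by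
        rw [hβb, ← mul_assoc, hCC, one_mul]
      -- write `b1 = κ'⁻¹ β + f z`, `c1 = κ' α + g z`
      have hl1 : (b1 - C κ'⁻¹ * β).IsHomogeneous 1 := hb1.sub (hj.C_mul _)
      have hl2 : (c1 - C κ' * α).IsHomogeneous 1 := hc1.sub (hi.C_mul _)
      obtain ⟨f, hf⟩ := split hl1
      obtain ⟨g, hg⟩ := split hl2
      have hf' : b1 = C κ'⁻¹ * β + C f * X 5 := by
        rw [map_sub, map_mul, algHom_C, algebraMap_eq, hbb, sub_self, zero_add] at hf
        linear_combination hf
      have hg' : c1 = C κ' * α + C g * X 5 := by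
        rw [map_sub, map_mul, algHom_C, algebraMap_eq, hκ', sub_self, zero_add] at hg
        linear_combination hg
      have hdd : d = C κ'⁻¹ * C g * β + C κ' * C f * α + C f * C g * X 5 := by
        have h1 : X 5 * (d - (C κ'⁻¹ * C g * β + C κ' * C f * α + C f * C g * X 5)) = 0 := by
          have h2 := E2
          rw [hαβ, hf', hg'] at h2
          linear_combination h2 + α * β * hCC
        rcases mul_eq_zero.1 h1 with h2 | h2
        · exact absurd h2 (X_ne_zero _)
        · exact sub_eq_zero.1 h2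
      refine final_step (κ := κ'⁻¹) (κ' := κ') (inv_ne_zero hκ'0) hκ'0 hi hj
        (hi'.sub (hj.C_mul f)) (hj'.sub (hi.C_mul g)) ?_
      have h1 : NN K = b1 * c2 + b2 * c1 - a * d - X 5 * e := by linear_combination E3
      rw [h1, hδ, hγ, he, hαβ, hdd, hf', hg']
      ring
  · -- `β` is a constant, `γ` is a constant
    have hj0 : j = 0 := by omega
    subst hj0
    obtain ⟨u, rfl⟩ := exists_const hj
    have hi0 : i' = 0 := by omega
    subst hi0
    obtain ⟨w, rfl⟩ := exists_const hi'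
    have hu : u ≠ 0 := by rintro rfl; exact hβ0 (map_zero _)
    have h1 : b2 = C (w / u) * a := by
      rw [hγ, hαβ]
      have : C (w / u) * (α * C u) = C (w / u * u) * α := by rw [map_mul]; ring
      rw [this, div_mul_cancel₀ _ hu, mul_comm]
    rw [h1, map_mul, algHom_C, algebraMap_eq, F2] at F3
    exact NN_ne_mul hb1' (F3.trans (by ring) : NN K = sg 0 b1 *
      (C (w / u) * sg 0 c1 ^ 2 + sg 0 c2 - sg 0 c1 * sg 0 d))

end Upper

section Rank

variable {K : Type*} [Field K]

lemma deg_smul {f : RR K} (c : K) (hf : f.totalDegree ≤ 2) : (C c * f).totalDegree ≤ 2 := by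
  rw [← mem_restrictTotalDegree] at hf ⊢
  rw [← smul_eq_C_mul]
  exact Submodule.smul_mem _ _ hf

lemma deg_add {f g : RR K} (hf : f.totalDegree ≤ 2) (hg : g.totalDegree ≤ 2) :
    (f + g).totalDegree ≤ 2 := by
  rw [← mem_restrictTotalDegree] at hf hg ⊢
  exact Submodule.add_mem _ hf hg

lemma deg_sub {f g : RR K} (hf : f.totalDegree ≤ 2) (hg : g.totalDegree ≤ 2) :
    (f - g).totalDegree ≤ 2 := by
  rw [← mem_restrictTotalDegree] at hf hg ⊢
  exact Submodule.sub_mem _ hf hg

lemma NN_hom : (NN K).IsHomogeneous 3 :=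
  ((isHomogeneous_X_pow 0 2).mul (isHomogeneous_X K 2)).add
    ((isHomogeneous_X_pow 1 2).mul (isHomogeneous_X K 3))

theorem norm_rep {A D B E : RR K} (hA : A.totalDegree ≤ 2) (hD : D.totalDegree ≤ 2)
    (hB : B.totalDegree ≤ 2) (hE : E.totalDegree ≤ 2) (hD0 : constantCoeff D = 1)
    (hB0 : constantCoeff B = 0) (hE0 : constantCoeff E = 0)
    (h : X 5 - NN K = A * D + B * E) : False := by
  have cA := eq_sum_components hA
  have cD := eq_sum_components hD
  have cB := eq_sum_components hB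
  have cE := eq_sum_components hE
  have hc : ∀ (f : RR K) n, (homogeneousComponent n f).IsHomogeneous n :=
    fun f n => homogeneousComponent_isHomogeneous n f
  have hcc : ∀ f : RR K, homogeneousComponent 0 f = C (constantCoeff f) := fun f => by
    rw [homogeneousComponent_zero]; rfl
  rw [hcc D, hD0, map_one] at cD
  rw [hcc B, hB0, map_zero, zero_add] at cB
  rw [hcc E, hE0, map_zero, zero_add] at cE
  set a0 := homogeneousComponent 0 A
  set a1 := homogeneousComponent 1 A
  set a2 := homogeneousComponent 2 A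
  set d1 := homogeneousComponent 1 D
  set d2 := homogeneousComponent 2 D
  set b1 := homogeneousComponent 1 B
  set b2 := homogeneousComponent 2 B
  set e1 := homogeneousComponent 1 E
  set e2 := homogeneousComponent 2 E
  have ha0 : a0.IsHomogeneous 0 := hc A 0
  have ha1 : a1.IsHomogeneous 1 := hc A 1
  have ha2 : a2.IsHomogeneous 2 := hc A 2
  have hd1 : d1.IsHomogeneous 1 := hc D 1
  have hd2 : d2.IsHomogeneous 2 := hc D 2
  have hb1 : b1.IsHomogeneous 1 := hc B 1
  have hb2 : b2.IsHomogeneous 2 := hc B 2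
  have he1 : e1.IsHomogeneous 1 := hc E 1
  have he2 : e2.IsHomogeneous 2 := hc E 2
  have hx : (X 5 : RR K).IsHomogeneous 1 := isHomogeneous_X K 5
  have f0 : (a0 : RR K).IsHomogeneous 0 := ha0
  have f1 : (a1 + a0 * d1 - X 5 : RR K).IsHomogeneous 1 := by
    have := ha0.mul hd1
    exact (ha1.add this).sub hx
  have f2 : (a2 + a1 * d1 + a0 * d2 + b1 * e1 : RR K).IsHomogeneous 2 := by
    have t1 := ha1.mul hd1
    have t2 := ha0.mul hd2
    have t3 := hb1.mul he1
    exact ((ha2.add t1).add t2).add t3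
  have f3 : (a1 * d2 + a2 * d1 + b1 * e2 + b2 * e1 + NN K : RR K).IsHomogeneous 3 := by
    have t1 := ha1.mul hd2
    have t2 := ha2.mul hd1
    have t3 := hb1.mul he2
    have t4 := hb2.mul he1
    exact (((t1.add t2).add t3).add t4).add NN_hom
  have f4 : (a2 * d2 + b2 * e2 : RR K).IsHomogeneous 4 := by
    have t1 := ha2.mul hd2
    have t2 := hb2.mul he2
    exact t1.add t2
  have hsum : a0 + (a1 + a0 * d1 - X 5) + (a2 + a1 * d1 + a0 * d2 + b1 * e1)
      + (a1 * d2 + a2 * d1 + b1 * e2 + b2 * e1 + NN K) + (a2 * d2 + b2 * e2) = 0 := by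
    rw [cA, cD, cB, cE] at h
    linear_combination -h
  obtain ⟨g0, g1, g2, g3, g4⟩ := hom4 f0 f1 f2 f3 f4 hsum
  rw [g0] at g1 g2
  have k1 : a1 = X 5 := by linear_combination g1
  rw [k1] at g2 g3
  refine no_rep (a := a2) (b1 := b1) (b2 := b2) (c1 := -e1) (c2 := -e2) (d := d1) (e := d2)
    ha2 hb1 hb2 he1.neg he2.neg hd1 ?_ ?_ ?_
  · linear_combination g2
  · linear_combination g3
  · linear_combination g4

theorem norm_rep' {Q1 R1 Q2 R2 : RR K} (hQ1 : Q1.totalDegree ≤ 2) (hR1 : R1.totalDegree ≤ 2)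
    (hQ2 : Q2.totalDegree ≤ 2) (hR2 : R2.totalDegree ≤ 2) (hr : constantCoeff R1 ≠ 0)
    (h : X 5 - NN K = Q1 * R1 + Q2 * R2) : False := by
  set r := constantCoeff R1
  set r2 := constantCoeff R2
  set q2 := constantCoeff Q2
  set D := C r⁻¹ * R1 with hD
  set E := R2 - C r2 * D with hE
  set B := Q2 - C q2 * D with hB
  set A := C r * Q1 + C q2 * E + C r2 * B + C q2 * (C r2 * D) with hA
  have dD : D.totalDegree ≤ 2 := deg_smul _ hR1
  have dE : E.totalDegree ≤ 2 := deg_sub hR2 (deg_smul _ dD)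
  have dB : B.totalDegree ≤ 2 := deg_sub hQ2 (deg_smul _ dD)
  have dA : A.totalDegree ≤ 2 := deg_add (deg_add (deg_add (deg_smul _ hQ1) (deg_smul _ dE))
    (deg_smul _ dB)) (deg_smul _ (deg_smul _ dD))
  have kD : constantCoeff D = 1 := by
    rw [hD, map_mul, constantCoeff_C]
    exact inv_mul_cancel₀ hr
  have kE : constantCoeff E = 0 := by
    rw [hE, map_sub, map_mul, constantCoeff_C, kD, mul_one, sub_self]
  have kB : constantCoeff B = 0 := by
    rw [hB, map_sub, map_mul, constantCoeff_C, kD, mul_one, sub_self]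
  refine norm_rep dA dD dB dE kD kB kE ?_
  have hCC : (C r : RR K) * C r⁻¹ = 1 := by rw [← map_mul, mul_inv_cancel₀ hr, map_one]
  have e1 : Q2 = B + C q2 * D := by rw [hB]; ring
  have e2 : R2 = E + C r2 * D := by rw [hE]; ring
  have e3 : C r * Q1 * D = Q1 * R1 := by
    rw [hD]; linear_combination Q1 * R1 * hCC
  rw [h, hA]
  conv_lhs => rw [e1, e2]
  linear_combination -e3

theorem no_two {Q1 R1 Q2 R2 : RR K} (hQ1 : Q1.totalDegree ≤ 2) (hR1 : R1.totalDegree ≤ 2)
    (hQ2 : Q2.totalDegree ≤ 2) (hR2 : R2.totalDegree ≤ 2)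
    (h : X 5 - NN K = Q1 * R1 + Q2 * R2) : False := by
  by_cases h1 : constantCoeff R1 = 0
  · by_cases h2 : constantCoeff Q1 = 0
    · by_cases h3 : constantCoeff R2 = 0
      · by_cases h4 : constantCoeff Q2 = 0
        · have h5 := congrArg (fun f => constantCoeff (pderiv 5 f)) h
          simp only [NN, map_sub, map_add, Derivation.leibniz, Derivation.leibniz_pow, pderiv_X_self,
            smul_eq_mul, map_mul, h1, h2, h3, h4, zero_mul, mul_zero, add_zero] at h5
          rw [pderiv_X_of_ne (by decide), pderiv_X_of_ne (by decide), pderiv_X_of_ne (by decide),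
            pderiv_X_of_ne (by decide)] at h5
          simp at h5
        · exact norm_rep' hR2 hQ2 hQ1 hR1 h4 (h.trans (by ring))
      · exact norm_rep' hQ2 hR2 hQ1 hR1 h3 (h.trans (by ring))
    · exact norm_rep' hR1 hQ1 hQ2 hR2 h2 (h.trans (by ring))
  · exact norm_rep' hQ1 hR1 hQ2 hR2 h1 h

lemma not_isSumOfProducts {r : ℕ} (hr : r ≤ 2) : ¬ IsSumOfProducts 3 r (X 5 - NN K) := by
  rintro ⟨Q, R, hQR, h⟩
  have hz : (0 : RR K).totalDegree ≤ 2 := by simp
  have hQ : ∀ i, (Q i).totalDegree ≤ 2 := fun i => Nat.lt_succ_iff.1 (hQR i).1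
  have hR : ∀ i, (R i).totalDegree ≤ 2 := fun i => Nat.lt_succ_iff.1 (hQR i).2
  interval_cases r
  · exact no_two hz hz hz hz (by rw [h]; simp)
  · exact no_two (hQ 0) (hR 0) hz hz (by rw [h]; simp)
  · exact no_two (hQ 0) (hR 0) (hQ 1) (hR 1) (by rw [h]; simp [Fin.sum_univ_two])

/-- the family -/
noncomputable def PP (K : Type*) [Field K] (s : Fin 2 → K) : RR K :=
  X 5 - NN K + X 2 * X 3 * (C (s 0) * X 5 + C (s 1) * X 4)

lemma PP_top_hom (s : Fin 2 → K) :
    (X 2 * X 3 * (C (s 0) * X 5 + C (s 1) * X 4) - NN K : RR K).IsHomogeneous 3 := by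
  have h1 := ((isHomogeneous_X K (2 : Fin 6)).mul (isHomogeneous_X K (3 : Fin 6))).mul
    (((isHomogeneous_X K (5 : Fin 6)).C_mul (s 0)).add ((isHomogeneous_X K (4 : Fin 6)).C_mul (s 1)))
  exact h1.sub NN_hom

lemma totalDegree_PP (s : Fin 2 → K) : (PP K s).totalDegree = 3 := by
  have h1 : PP K s = X 5 + (X 2 * X 3 * (C (s 0) * X 5 + C (s 1) * X 4) - NN K) := by
    rw [PP]; ring
  apply le_antisymm
  · rw [h1]
    refine (totalDegree_add _ _).trans (max_le ?_ ?_)
    · rw [totalDegree_X]; norm_num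
    · exact (PP_top_hom s).totalDegree_le
  · by_contra hlt
    have h2 := homogeneousComponent_eq_zero 3 (PP K s) (by omega)
    rw [h1, map_add, homogeneousComponent_of_mem (PP_top_hom s), if_pos rfl,
      homogeneousComponent_of_mem (isHomogeneous_X K (5 : Fin 6)), if_neg (by norm_num),
      zero_add] at h2
    have h3 := congrArg (eval (![1, 0, 1, 0, 0, 0] : Fin 6 → K)) h2
    rw [map_sub, eval_NN] at h3
    simp at h3

lemma rank_nonempty (s : Fin 2 → K) : IsSumOfProducts 3 3 (PP K s) := by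
  refine ⟨![1, X 2, X 3], ![X 5, X 3 * (C (s 0) * X 5 + C (s 1) * X 4) - X 0 ^ 2, -X 1 ^ 2], ?_, ?_⟩
  · have hX : ∀ i : Fin 6, (X i : RR K).totalDegree < 3 := fun i => by
      rw [totalDegree_X]; norm_num
    have h2 : (X 3 * (C (s 0) * X 5 + C (s 1) * X 4) - X 0 ^ 2 : RR K).IsHomogeneous 2 :=
      ((isHomogeneous_X K (3 : Fin 6)).mul (((isHomogeneous_X K (5 : Fin 6)).C_mul (s 0)).add
        ((isHomogeneous_X K (4 : Fin 6)).C_mul (s 1)))).sub (isHomogeneous_X_pow 0 2)
    have h3 : (-X 1 ^ 2 : RR K).IsHomogeneous 2 := (isHomogeneous_X_pow 1 2).neg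
    intro i
    fin_cases i
    · exact ⟨by simp, hX _⟩
    · exact ⟨hX _, lt_of_le_of_lt h2.totalDegree_le (by norm_num)⟩
    · exact ⟨hX _, lt_of_le_of_lt h3.totalDegree_le (by norm_num)⟩
  · rw [Fin.sum_univ_three]
    simp only [PP, NN, Matrix.cons_val_zero, Matrix.cons_val_one, Matrix.cons_val]
    ring

lemma rank_le_two [IsAlgClosed K] (s : Fin 2 → K) (h0 : s 0 ≠ 0) (h1 : s 1 = 0) :
    IsSumOfProducts 3 2 (PP K s) := by
  obtain ⟨ε, hε⟩ := IsAlgClosed.exists_pow_nat_eq (s 0) (n := 2) (by norm_num)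
  have hε0 : ε ≠ 0 := by
    rintro rfl
    exact h0 (by rw [← hε]; ring)
  have hx : ∀ i j : Fin 6, (X i * X j : RR K).IsHomogeneous 2 := fun i j =>
    (isHomogeneous_X K i).mul (isHomogeneous_X K j)
  have d1 : ∀ i : Fin 6, (X i : RR K).totalDegree ≤ 2 := fun i => by
    rw [totalDegree_X]; norm_num
  have d2 : ∀ i j : Fin 6, (X i * X j : RR K).totalDegree ≤ 2 := fun i j => (hx i j).totalDegree_le
  have dC : ∀ c : K, (C c : RR K).totalDegree ≤ 2 := fun c => by simp
  refine ⟨![C ε⁻¹ * (C 1 + C (ε ^ 2) * (X 2 * X 3)), C (-ε⁻¹) * (X 1 + C ε * (X 0 * X 2))],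
    ![X 1 * X 0 + C ε * X 5, X 0 + C ε * (X 1 * X 3)], ?_, ?_⟩
  · intro i
    fin_cases i
    · exact ⟨Nat.lt_succ_of_le (deg_smul _ (deg_add (dC _) (deg_smul _ (d2 _ _)))),
        Nat.lt_succ_of_le (deg_add (d2 _ _) (deg_smul _ (d1 _)))⟩
    · exact ⟨Nat.lt_succ_of_le (deg_smul _ (deg_add (d1 _) (deg_smul _ (d2 _ _)))),
        Nat.lt_succ_of_le (deg_add (d1 _) (deg_smul _ (d2 _ _)))⟩
  · rw [Fin.sum_univ_two]
    simp only [PP, NN, Matrix.cons_val_zero, Matrix.cons_val_one, Matrix.cons_val]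
    have hCC : (C ε : RR K) * C ε⁻¹ = 1 := by rw [← map_mul, mul_inv_cancel₀ hε0, map_one]
    rw [h1, ← hε]
    simp only [map_neg, map_pow, map_zero, map_one]
    linear_combination (-X 5 + X 0 ^ 2 * X 2 + X 1 ^ 2 * X 3 - C ε ^ 2 * X 2 * X 3 * X 5) * hCC

end Rank

section Final

variable {K : Type*} [Field K]

/-- the substitution killing the extra term -/
noncomputable def tau (c : K) : RR K →ₐ[K] RR K := aeval fun i => if i = 4 then C c * X 5 else X i

lemma tau_X (c : K) (i : Fin 6) : tau c (X i) = if i = 4 then C c * X 5 else X i := by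
  simp [tau]

lemma tau_hom (c : K) {f : RR K} {n : ℕ} (hf : f.IsHomogeneous n) :
    (tau c f).IsHomogeneous n := by
  have := hf.aeval (fun i : Fin 6 => if i = 4 then C c * X 5 else X i) (n := 1) (by
    intro i
    split_ifs
    · exact (isHomogeneous_X K (5 : Fin 6)).C_mul c
    · exact isHomogeneous_X _ _)
  rwa [one_mul] at this

lemma tau_deg (c : K) {f : RR K} (hf : f.totalDegree < 3) : (tau c f).totalDegree < 3 := by
  have h := eq_sum_components (Nat.lt_succ_iff.1 hf)
  rw [h, map_add, map_add]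
  have k0 := (tau_hom c (homogeneousComponent_isHomogeneous 0 f)).totalDegree_le
  have k1 := (tau_hom c (homogeneousComponent_isHomogeneous 1 f)).totalDegree_le
  have k2 := (tau_hom c (homogeneousComponent_isHomogeneous 2 f)).totalDegree_le
  exact Nat.lt_succ_of_le (deg_add (deg_add (k0.trans (by norm_num)) (k1.trans (by norm_num)))
    (k2.trans (by norm_num)))

lemma not_two_of_ne (s : Fin 2 → K) (h1 : s 1 ≠ 0) {r : ℕ} (hr : r ≤ 2) :
    ¬ IsSumOfProducts 3 r (PP K s) := by
  rintro ⟨Q, R, hQR, h⟩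
  apply not_isSumOfProducts (K := K) hr
  refine ⟨fun i => tau (-(s 0 / s 1)) (Q i), fun i => tau (-(s 0 / s 1)) (R i),
    fun i => ⟨tau_deg _ (hQR i).1, tau_deg _ (hQR i).2⟩, ?_⟩
  have h2 := congrArg (tau (-(s 0 / s 1))) h
  rw [map_sum] at h2
  simp only [map_mul] at h2
  rw [← h2]
  simp only [PP, NN, map_add, map_sub, map_mul, map_pow, tau_X, algHom_C, algebraMap_eq]
  have e1 : (C (s 0) : RR K) * X 5 + C (s 1) * (C (-(s 0 / s 1)) * X 5) = 0 := by
    have : (C (s 1) : RR K) * (C (-(s 0 / s 1)) * X 5) = C (-(s 0)) * X 5 := by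
      rw [← mul_assoc, ← map_mul]
      congr 2
      field_simp
    rw [this, map_neg]
    ring
  simp only [if_true, Fin.reduceEq, if_false]
  rw [e1]
  ring

lemma not_two_of_zero (s : Fin 2 → K) (h0 : s 0 = 0) (h1 : s 1 = 0) {r : ℕ} (hr : r ≤ 2) :
    ¬ IsSumOfProducts 3 r (PP K s) := by
  have : PP K s = X 5 - NN K := by
    rw [PP, h0, h1]
    simp
  rw [this]
  exact not_isSumOfProducts hr

lemma schmidtRank_le {s : Fin 2 → K} {r : ℕ} (h : IsSumOfProducts 3 r (PP K s)) :
    schmidtRank (PP K s) ≤ r := by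
  apply Nat.sInf_le
  show IsSumOfProducts (PP K s).totalDegree r (PP K s)
  rw [totalDegree_PP]
  exact h

lemma schmidtRank_eq {s : Fin 2 → K} (h : ∀ r ≤ 2, ¬ IsSumOfProducts 3 r (PP K s)) :
    schmidtRank (PP K s) = 3 := by
  apply le_antisymm (schmidtRank_le (rank_nonempty s))
  by_contra hlt
  have hne : {r | IsSumOfProducts (PP K s).totalDegree r (PP K s)}.Nonempty := by
    refine ⟨3, ?_⟩
    show IsSumOfProducts (PP K s).totalDegree 3 (PP K s)
    rw [totalDegree_PP]
    exact rank_nonempty s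
  have h1 := Nat.sInf_mem hne
  have h2 : IsSumOfProducts (PP K s).totalDegree (schmidtRank (PP K s)) (PP K s) := h1
  rw [totalDegree_PP] at h2
  exact h _ (by omega) h2

/-- the universal polynomial of the family -/
noncomputable def UU (K : Type*) [Field K] : MvPolynomial (Fin 6) (MvPolynomial (Fin 2) K) :=
  X 5 - (X 0 ^ 2 * X 2 + X 1 ^ 2 * X 3) + X 2 * X 3 * (C (X 0) * X 5 + C (X 1) * X 4)

lemma map_UU (s : Fin 2 → K) : MvPolynomial.map (eval s) (UU K) = PP K s := by
  simp only [UU, PP, NN, map_add, map_sub, map_mul, map_pow, map_X, map_C, eval_X]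

/-- the locus of maximal rank -/
lemma maxLocus [IsAlgClosed K] :
    {t : Fin 2 → K | ∀ s, schmidtRank (PP K s) ≤ schmidtRank (PP K t)}
      = {t | t 1 ≠ 0 ∨ (t 0 = 0 ∧ t 1 = 0)} := by
  ext t
  simp only [Set.mem_ofPred_eq]
  constructor
  · intro h
    by_contra hcon
    rw [not_or, not_not] at hcon
    obtain ⟨h1, h2⟩ := hcon
    have h3 : t 0 ≠ 0 := fun h4 => h2 ⟨h4, h1⟩
    have h5 := schmidtRank_le (rank_le_two t h3 h1)
    have h6 := h (fun _ => 0)
    rw [schmidtRank_eq (fun r hr => not_two_of_zero (fun _ => 0) rfl rfl hr)] at h6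
    omega
  · intro h s
    have h1 : schmidtRank (PP K t) = 3 := by
      rcases h with h | ⟨h, h'⟩
      · exact schmidtRank_eq fun r hr => not_two_of_ne t h hr
      · exact schmidtRank_eq fun r hr => not_two_of_zero t h h' hr
    rw [h1]
    exact schmidtRank_le (rank_nonempty s)

lemma isClosed_iff (Z : Set (Fin 2 → K)) : @IsClosed _ (zariskiTopology K 2) Z ↔
    ∃ I : Set (MvPolynomial (Fin 2) K), Z = {x | ∀ f ∈ I, eval x f = 0} := by
  rw [← @isOpen_compl_iff _ _ (zariskiTopology K 2)]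
  show Zᶜᶜ ∈ {Z | ∃ I : Set (MvPolynomial (Fin 2) K), Z = {x | ∀ f ∈ I, eval x f = 0}} ↔ _
  rw [compl_compl]
  rfl

lemma eq_zero_of_vanish [Infinite K] (f : MvPolynomial (Fin 2) K)
    (h : ∀ t : Fin 2 → K, t 1 ≠ 0 → eval t f = 0) : f = 0 := by
  have h1 : f * X 1 = 0 := by
    apply MvPolynomial.funext
    intro t
    rw [map_mul, eval_X, map_zero]
    by_cases ht : t 1 = 0
    · rw [ht, mul_zero]
    · rw [h t ht, zero_mul]
  rcases mul_eq_zero.1 h1 with h2 | h2
  · exact h2
  · exact absurd h2 (X_ne_zero _)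

lemma vanish_origin [Infinite K] (f : MvPolynomial (Fin 2) K)
    (h : ∀ c : K, c ≠ 0 → eval ![c, 0] f = 0) : eval ![0, 0] f = 0 := by
  let g : Polynomial K := aeval (![Polynomial.X, 0] : Fin 2 → Polynomial K) f
  have hg : ∀ c : K, g.eval c = eval ![c, 0] f := by
    intro c
    have h1 : (Polynomial.evalRingHom c).comp
        ((aeval (![Polynomial.X, 0] : Fin 2 → Polynomial K) :
          MvPolynomial (Fin 2) K →ₐ[K] Polynomial K) : MvPolynomial (Fin 2) K →+* Polynomial K)
        = (eval ![c, 0] : MvPolynomial (Fin 2) K →+* K) := by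
      apply MvPolynomial.ringHom_ext
      · intro r
        simp
      · intro i
        fin_cases i <;> simp
    exact congrArg (fun φ => φ f) h1
  have h2 : g * Polynomial.X = 0 := by
    apply Polynomial.funext
    intro c
    rw [Polynomial.eval_mul, Polynomial.eval_X, Polynomial.eval_zero]
    by_cases hc : c = 0
    · rw [hc, mul_zero]
    · rw [hg, h c hc, zero_mul]
  have h3 : g = 0 := by
    rcases mul_eq_zero.1 h2 with h4 | h4
    · exact h4
    · exact absurd h4 Polynomial.X_ne_zero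
  rw [← hg, h3, Polynomial.eval_zero]

theorem not_locallyClosed [Infinite K] : ¬ @IsLocallyClosed (Fin 2 → K) (zariskiTopology K 2)
    {t | t 1 ≠ 0 ∨ (t 0 = 0 ∧ t 1 = 0)} := by
  rintro ⟨O, Z, hO, hZ, hOZ⟩
  rw [isClosed_iff] at hZ
  obtain ⟨I, rfl⟩ := hZ
  have hI : ∀ f ∈ I, f = 0 := by
    intro f hf
    apply eq_zero_of_vanish
    intro t ht
    have h1 : t ∈ {t : Fin 2 → K | t 1 ≠ 0 ∨ (t 0 = 0 ∧ t 1 = 0)} := Or.inl ht
    rw [hOZ] at h1
    exact h1.2 f hf
  rw [← @isClosed_compl_iff _ (zariskiTopology K 2), isClosed_iff] at hO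
  obtain ⟨J, hJ⟩ := hO
  have h0 : (![0, 0] : Fin 2 → K) ∈ O := by
    have h1 : (![0, 0] : Fin 2 → K) ∈ {t : Fin 2 → K | t 1 ≠ 0 ∨ (t 0 = 0 ∧ t 1 = 0)} :=
      Or.inr ⟨by simp, by simp⟩
    rw [hOZ] at h1
    exact h1.1
  have h2 : (![0, 0] : Fin 2 → K) ∈ Oᶜ := by
    rw [hJ]
    intro f hf
    apply vanish_origin
    intro c hc
    have h3 : (![c, 0] : Fin 2 → K) ∈ Oᶜ := by
      intro h4
      have h5 : (![c, 0] : Fin 2 → K) ∈ {t : Fin 2 → K | t 1 ≠ 0 ∨ (t 0 = 0 ∧ t 1 = 0)} := by
        rw [hOZ]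
        refine ⟨h4, fun f hf => ?_⟩
        rw [hI f hf, map_zero]
      rcases h5 with h6 | h6
      · exact h6 (by simp)
      · exact hc (by simpa using h6.1)
    rw [hJ] at h3
    exact h3 f hf
  exact h2 h0

end Final

/-- For every algebraically closed field `K` there is a family `P s` of polynomials in six
variables, all of degree exactly three, parametrized by the points `s` of the affine plane over
`K`, whose coefficients are polynomial functions of `s`, such that the set of the parameters at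
which the Schmidt rank is maximal is not locally closed in the Zariski topology. -/
theorem result (K : Type*) [Field K] [IsAlgClosed K] :
    ∃ (c : (Fin 6 →₀ ℕ) → MvPolynomial (Fin 2) K) (P : (Fin 2 → K) → MvPolynomial (Fin 6) K),
      (∀ s α, coeff α (P s) = eval s (c α)) ∧ (∀ s, (P s).totalDegree = 3) ∧
      ¬ @IsLocallyClosed (Fin 2 → K) (zariskiTopology K 2)
        {t | ∀ s, schmidtRank (P s) ≤ schmidtRank (P t)} := by
  refine ⟨fun α => coeff α (UU K), PP K, fun s α => ?_, totalDegree_PP, ?_⟩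
  · rw [← map_UU, coeff_map]
  · have : Infinite K := IsAlgClosed.instInfinite
    rw [maxLocus]
    exact not_locallyClosed

end Pool.Agent.Results.MP_60b600_ag.NotLocallyClosed
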